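import Pool.Agent.Helper46.DC.Defs

set_option autoImplicit false

/-! DC-1: algebra of relative acyclicity. -/

namespace Pool.Agent.DC

open Finset

theorem chain_add_self {α : Type} (c : α → ZMod 2) : c + c = 0 := by
  funext a
  exact CharTwo.add_self_eq_zero (c a)

theorem Cx.D_zero' {α : Type} (K : Cx α) : K.D 0 = 0 := by
  have h := K.D_add 0 0
  rw [add_zero] at h
  have h2 := chain_add_self (K.D 0)
  rw [← h] at h2
  exact h2

theorem supp_add {α : Type} {S : Set α} {c c' : α → ZMod 2} (h : ∀ a, c a ≠ 0 → a ∈ S)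
    (h' : ∀ a, c' a ≠ 0 → a ∈ S) : ∀ a, (c + c') a ≠ 0 → a ∈ S := by
  intro a ha
  by_cases h0 : c a = 0
  · refine h' a ?_
    intro h1
    apply ha
    simp [h0, h1]
  · exact h a h0

theorem Ch.add {α : Type} {K : Cx α} {S : Set α} {n : ℕ} {c c' : α → ZMod 2} (h : Ch K S n c)
    (h' : Ch K S n c') : Ch K S n (c + c') := by
  intro a ha
  by_cases h0 : c a = 0
  · refine h' a ?_
    intro h1
    apply ha
    simp [h0, h1]
  · exact h a h0

theorem Ch.mono {α : Type} {K : Cx α} {S T : Set α} {n : ℕ} {c : α → ZMod 2} (h : Ch K S n c)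
    (hST : S ⊆ T) : Ch K T n c := fun a ha => ⟨hST (h a ha).1, (h a ha).2⟩

theorem Ch.zero {α : Type} (K : Cx α) (S : Set α) (n : ℕ) : Ch K S n 0 := by
  intro a ha
  exact absurd rfl ha

theorem Ch.D {α : Type} {K : Cx α} {S : Set α} {n : ℕ} {c : α → ZMod 2} (hS : Closed K S)
    (h : Ch K S (n + 1) c) : Ch K S n (K.D c) := by
  intro a ha
  exact ⟨hS c (fun a ha => (h a ha).1) a ha, K.D_hom n c (fun a ha => (h a ha).2) a ha⟩

theorem Ch.D_eq_zero {α : Type} {K : Cx α} {S : Set α} {c : α → ZMod 2}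
    (h : Ch K S 0 c) : K.D c = 0 := K.D_zero c fun a ha => (h a ha).2

theorem Ch.eq_zero_of_empty {α : Type} {K : Cx α} {n : ℕ} {c : α → ZMod 2}
    (h : Ch K ∅ n c) : c = 0 := by
  funext a
  by_contra h0
  exact (h a h0).1

theorem Ch.inter {α : Type} {K : Cx α} {S T : Set α} {n : ℕ} {c : α → ZMod 2} (h : Ch K S n c)
    (h' : Ch K T n c) : Ch K (S ∩ T) n c :=
  fun a ha => ⟨⟨(h a ha).1, (h' a ha).1⟩, (h a ha).2⟩

/-- splitting a chain supported in a union -/
theorem Ch.split {α : Type} {K : Cx α} {S T : Set α} {n : ℕ} {c : α → ZMod 2}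
    (h : Ch K (S ∪ T) n c) : ∃ a b, c = a + b ∧ Ch K S n a ∧ Ch K T n b := by
  classical
  refine ⟨S.indicator c, Sᶜ.indicator c, (Set.indicator_self_add_compl S c).symm, ?_, ?_⟩
  · intro a ha
    have haS : a ∈ S := by
      by_contra h0
      exact ha (Set.indicator_of_notMem h0 c)
    rw [Set.indicator_of_mem haS] at ha
    exact ⟨haS, (h a ha).2⟩
  · intro a ha
    have haS : a ∈ Sᶜ := by
      by_contra h0
      exact ha (Set.indicator_of_notMem h0 c)
    rw [Set.indicator_of_mem haS] at ha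
    rcases (h a ha).1 with h1 | h1
    · exact absurd h1 haS
    · exact ⟨h1, (h a ha).2⟩

theorem closed_union {α : Type} (K : Cx α) {S T : Set α} (hS : Closed K S) (hT : Closed K T) :
    Closed K (S ∪ T) := by
  classical
  intro c hc a ha
  have hsplit := Set.indicator_self_add_compl S c
  have h1 : ∀ x, S.indicator c x ≠ 0 → x ∈ S := by
    intro x hx
    by_contra h0
    exact hx (Set.indicator_of_notMem h0 c)
  have h2 : ∀ x, Sᶜ.indicator c x ≠ 0 → x ∈ T := by
    intro x hx
    have hxS : x ∈ Sᶜ := by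
      by_contra h0
      exact hx (Set.indicator_of_notMem h0 c)
    rw [Set.indicator_of_mem hxS] at hx
    rcases hc x hx with h1 | h1
    · exact absurd h1 hxS
    · exact h1
  rw [← hsplit, K.D_add] at ha
  by_cases h0 : K.D (S.indicator c) a = 0
  · right
    refine hT _ h2 a ?_
    intro h3
    apply ha
    simp [h0, h3]
  · left
    exact hS _ h1 a h0

theorem closed_inter {α : Type} (K : Cx α) {S T : Set α} (hS : Closed K S) (hT : Closed K T) :
    Closed K (S ∩ T) := by
  intro c hc a ha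
  exact ⟨hS c (fun x hx => (hc x hx).1) a ha, hT c (fun x hx => (hc x hx).2) a ha⟩

theorem closed_empty {α : Type} (K : Cx α) : Closed K (∅ : Set α) := by
  intro c hc a ha
  have : c = 0 := by
    funext x
    by_contra h0
    exact hc x h0
  rw [this, K.D_zero'] at ha
  exact absurd rfl ha

theorem closed_iUnion {α β : Type} (K : Cx α) (I : Finset β) (S : β → Set α)
    (hS : ∀ i, Closed K (S i)) : Closed K {a | ∃ i ∈ I, a ∈ S i} := by
  classical
  induction I using Finset.induction_on with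
  | empty =>
    have : {a | ∃ i ∈ (∅ : Finset β), a ∈ S i} = ∅ := by
      ext a
      simp
    rw [this]
    exact closed_empty K
  | insert i I _ ih =>
    have : {a | ∃ j ∈ insert i I, a ∈ S j} = S i ∪ {a | ∃ j ∈ I, a ∈ S j} := by
      ext a
      simp
    rw [this]
    exact closed_union K (hS i) ih

theorem closed_iInter {α β : Type} (K : Cx α) (I : Finset β) (S : β → Set α)
    (hS : ∀ i, Closed K (S i)) : Closed K {a | ∀ i ∈ I, a ∈ S i} := by
  intro c hc a ha i hi
  exact hS i c (fun x hx => hc x hx i hi) a ha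

theorem relAc_mono {α : Type} {K : Cx α} {d d' : ℕ} (h : d' ≤ d) {S S' : Set α}
    (hS : RelAc K d S S') : RelAc K d' S S' := fun n hn => hS n (lt_of_lt_of_le hn h)

theorem relAc_union {α : Type} (K : Cx α) (d : ℕ) {S S' T T' : Set α} (hS : Closed K S)
    (hS' : Closed K S') (hT : Closed K T) (hT' : Closed K T') (h1 : S' ⊆ S) (h2 : T' ⊆ T)
    (a1 : RelAc K d S S') (a2 : RelAc K d T T') (a3 : RelAc K (d - 1) (S ∩ T) (S' ∩ T')) :
    RelAc K d (S ∪ T) (S' ∪ T') := by
  intro n hn c hc hDc
  obtain ⟨a, b, hab, ha, hb⟩ := hc.split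
  rcases n with _ | m
  · obtain ⟨w1, r1, hw1, hr1, e1⟩ := a1 0 hn a ha (by
      intro x hx
      rw [ha.D_eq_zero] at hx
      exact absurd rfl hx)
    obtain ⟨w2, r2, hw2, hr2, e2⟩ := a2 0 hn b hb (by
      intro x hx
      rw [hb.D_eq_zero] at hx
      exact absurd rfl hx)
    refine ⟨w1 + w2, r1 + r2, (hw1.mono Set.subset_union_left).add
      (hw2.mono Set.subset_union_right), (hr1.mono Set.subset_union_left).add
      (hr2.mono Set.subset_union_right), ?_⟩
    rw [hab, e1, e2, K.D_add]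
    abel
  · have hDcm : Ch K (S' ∪ T') m (K.D c) := fun x hx =>
      ⟨hDc x hx, K.D_hom m c (fun y hy => (hc y hy).2) x hx⟩
    obtain ⟨e, f, hef, he, hf⟩ := hDcm.split
    have hDa : Ch K S m (K.D a) := Ch.D hS ha
    have hDb : Ch K T m (K.D b) := Ch.D hT hb
    have hsum : K.D a + K.D b = e + f := by rw [← K.D_add, ← hab, hef]
    have hg : K.D a + e = K.D b + f := by
      have h3 : K.D a + e + (K.D b + f) = 0 := by
        have : K.D a + e + (K.D b + f) = (K.D a + K.D b) + (e + f) := by abel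
        rw [this, hsum, chain_add_self]
      have h4 : K.D a + e + (K.D b + f) + (K.D b + f) = K.D b + f := by rw [h3, zero_add]
      rw [add_assoc, chain_add_self, add_zero] at h4
      exact h4
    have hgS : Ch K S m (K.D a + e) := hDa.add (he.mono h1)
    have hgT : Ch K T m (K.D a + e) := by
      rw [hg]
      exact hDb.add (hf.mono h2)
    have hgD1 : K.D (K.D a + e) = K.D e := by rw [K.D_add, K.D_D, zero_add]
    have hgD2 : K.D (K.D a + e) = K.D f := by rw [hg, K.D_add, K.D_D, zero_add]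
    obtain ⟨w, g', hw, hg', ew⟩ := a3 m (by omega) (K.D a + e) (hgS.inter hgT) (by
      intro x hx
      constructor
      · rw [hgD1] at hx
        exact hS' e (fun y hy => (he y hy).1) x hx
      · rw [hgD2] at hx
        exact hT' f (fun y hy => (hf y hy).1) x hx)
    have hDw : K.D w = K.D a + e + g' := by
      rw [ew, add_assoc, chain_add_self, add_zero]
    have hawS : Ch K S (m + 1) (a + w) := ha.add (hw.mono Set.inter_subset_left)
    have hbwT : Ch K T (m + 1) (b + w) := hb.add (hw.mono Set.inter_subset_right)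
    have hDaw : K.D (a + w) = e + g' := by
      rw [K.D_add, hDw]
      have : K.D a + (K.D a + e + g') = (K.D a + K.D a) + (e + g') := by abel
      rw [this, chain_add_self, zero_add]
    have hDbw : K.D (b + w) = f + g' := by
      rw [K.D_add, hDw, hg]
      have : K.D b + (K.D b + f + g') = (K.D b + K.D b) + (f + g') := by abel
      rw [this, chain_add_self, zero_add]
    obtain ⟨v1, r1, hv1, hr1, e1⟩ := a1 (m + 1) hn (a + w) hawS (by
      rw [hDaw]
      exact supp_add (fun x hx => (he x hx).1) (fun x hx => (hg' x hx).1.1))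
    obtain ⟨v2, r2, hv2, hr2, e2⟩ := a2 (m + 1) hn (b + w) hbwT (by
      rw [hDbw]
      exact supp_add (fun x hx => (hf x hx).1) (fun x hx => (hg' x hx).1.2))
    refine ⟨v1 + v2, r1 + r2, (hv1.mono Set.subset_union_left).add
      (hv2.mono Set.subset_union_right), (hr1.mono Set.subset_union_left).add
      (hr2.mono Set.subset_union_right), ?_⟩
    have h5 : c = (a + w) + (b + w) := by
      have : (a + w) + (b + w) = a + b + (w + w) := by abel
      rw [this, chain_add_self, add_zero, hab]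
    rw [h5, e1, e2, K.D_add]
    abel

theorem relAc_cover {α β : Type} (K : Cx α) (d : ℕ) (I : Finset β) (S S' : β → Set α)
    (hS : ∀ i, Closed K (S i)) (hS' : ∀ i, Closed K (S' i)) (hsub : ∀ i, S' i ⊆ S i)
    (h : ∀ σ ⊆ I, σ.Nonempty → RelAc K d {a | ∀ i ∈ σ, a ∈ S i} {a | ∀ i ∈ σ, a ∈ S' i}) :
    RelAc K d {a | ∃ i ∈ I, a ∈ S i} {a | ∃ i ∈ I, a ∈ S' i} := by
  classical
  induction I using Finset.induction_on generalizing S S' with
  | empty =>
    have e1 : {a | ∃ i ∈ (∅ : Finset β), a ∈ S i} = ∅ := by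
      ext a
      simp
    have e2 : {a | ∃ i ∈ (∅ : Finset β), a ∈ S' i} = ∅ := by
      ext a
      simp
    rw [e1, e2]
    intro n _ c hc _
    refine ⟨0, 0, Ch.zero K _ _, Ch.zero K _ _, ?_⟩
    rw [hc.eq_zero_of_empty, K.D_zero', add_zero]
  | insert i I _ ih =>
    have e1 : ∀ R : β → Set α, {a | ∃ j ∈ insert i I, a ∈ R j} = R i ∪ {a | ∃ j ∈ I, a ∈ R j} := by
      intro R
      ext a
      simp
    have e2 : ∀ R : β → Set α, R i ∩ {a | ∃ j ∈ I, a ∈ R j} = {a | ∃ j ∈ I, a ∈ R j ∩ R i} := by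
      intro R
      ext a
      simp only [Set.mem_inter_iff, Set.mem_ofPred_eq]
      constructor
      · rintro ⟨h1, j, hj, h2⟩
        exact ⟨j, hj, h2, h1⟩
      · rintro ⟨j, hj, h2, h1⟩
        exact ⟨h1, j, hj, h2⟩
    rw [e1 S, e1 S']
    refine relAc_union K d (hS i) (hS' i) (closed_iUnion K I S hS) (closed_iUnion K I S' hS')
      (hsub i) ?_ ?_ ?_ ?_
    · rintro a ⟨j, hj, ha⟩
      exact ⟨j, hj, hsub j ha⟩
    · have h3 := h {i} (by simp) ⟨i, by simp⟩
      simpa using h3
    · refine ih S S' hS hS' hsub ?_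
      intro σ hσ hne
      exact h σ (hσ.trans (Finset.subset_insert i I)) hne
    · refine relAc_mono (Nat.sub_le d 1) ?_
      rw [e2 S, e2 S']
      refine ih (fun j => S j ∩ S i) (fun j => S' j ∩ S' i)
        (fun j => closed_inter K (hS j) (hS i)) (fun j => closed_inter K (hS' j) (hS' i))
        (fun j => Set.inter_subset_inter (hsub j) (hsub i)) ?_
      intro σ hσ hne
      have e3 : ∀ R : β → Set α, {a | ∀ j ∈ σ, a ∈ R j ∩ R i} = {a | ∀ j ∈ insert i σ, a ∈ R j} := by
        intro R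
        ext a
        simp only [Set.mem_inter_iff, Set.mem_ofPred_eq, Finset.mem_insert, forall_eq_or_imp]
        obtain ⟨j0, hj0⟩ := hne
        constructor
        · intro h4
          exact ⟨(h4 j0 hj0).2, fun j hj => (h4 j hj).1⟩
        · rintro ⟨h4, h5⟩ j hj
          exact ⟨h5 j hj, h4⟩
      rw [e3 S, e3 S']
      exact h (insert i σ) (Finset.insert_subset_insert i hσ) (Finset.insert_nonempty i σ)

theorem relAc_cone {α : Type} (K : Cx α) (d : ℕ) {S T : Set α} (hS : Closed K S)
    (hT : Closed K T) (a1 : RelAc K d T ∅) (a2 : RelAc K d S (S ∩ T)) :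
    RelAc K d (S ∪ T) ∅ := by
  intro n hn c hc hDc
  have hDc0 : K.D c = 0 := by
    funext x
    by_contra h0
    exact hDc x h0
  obtain ⟨a, b, hab, ha, hb⟩ := hc.split
  have hDab : K.D a = K.D b := by
    have h3 : K.D a + K.D b = 0 := by rw [← K.D_add, ← hab, hDc0]
    have h4 : K.D a + K.D b + K.D b = K.D b := by rw [h3, zero_add]
    rw [add_assoc, chain_add_self, add_zero] at h4
    exact h4
  obtain ⟨v, a', hv, ha', ev⟩ := a2 n hn a ha (by
    intro x hx
    refine ⟨hS a (fun y hy => (ha y hy).1) x hx, ?_⟩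
    rw [hDab] at hx
    exact hT b (fun y hy => (hb y hy).1) x hx)
  have hcyc : K.D (a' + b) = 0 := by
    have h5 : a' + b = c + K.D v := by
      rw [hab, ev]
      have : K.D v + a' + b + K.D v = (K.D v + K.D v) + (a' + b) := by abel
      rw [this, chain_add_self, zero_add]
    rw [h5, K.D_add, K.D_D, hDc0, add_zero]
  obtain ⟨w, r, hw, hr, ew⟩ := a1 n hn (a' + b) ((ha'.mono Set.inter_subset_right).add hb) (by
    intro x hx
    rw [hcyc] at hx
    exact absurd rfl hx)
  refine ⟨v + w, r, (hv.mono Set.subset_union_left).add (hw.mono Set.subset_union_right), hr, ?_⟩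
  rw [hab, ev, K.D_add, add_assoc, ew]
  abel

theorem relAc_pair {α : Type} (K : Cx α) (d : ℕ) {S S' : Set α} (hS : Closed K S)
    (hS' : Closed K S') (h1 : S' ⊆ S) (a1 : RelAc K d S ∅) (a2 : RelAc K d S' ∅) :
    RelAc K d S S' := by
  intro n hn c hc hDc
  rcases n with _ | m
  · obtain ⟨w, r, hw, hr, ew⟩ := a1 0 hn c hc (by
      intro x hx
      rw [hc.D_eq_zero] at hx
      exact absurd rfl hx)
    exact ⟨w, r, hw, hr.mono (Set.empty_subset _), ew⟩
  · have hDcm : Ch K S' m (K.D c) := fun x hx =>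
      ⟨hDc x hx, K.D_hom m c (fun y hy => (hc y hy).2) x hx⟩
    obtain ⟨w, r, hw, hr, ew⟩ := a2 m (by omega) (K.D c) hDcm (by
      intro x hx
      rw [K.D_D] at hx
      exact absurd rfl hx)
    have hr0 : r = 0 := hr.eq_zero_of_empty
    rw [hr0, add_zero] at ew
    have hcw : K.D (c + w) = 0 := by
      rw [K.D_add, ew, chain_add_self]
    obtain ⟨v, s, hv, hs, ev⟩ := a1 (m + 1) hn (c + w) (hc.add (hw.mono h1)) (by
      intro x hx
      rw [hcw] at hx
      exact absurd rfl hx)
    refine ⟨v, w, hv, hw, ?_⟩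
    have hs0 : s = 0 := hs.eq_zero_of_empty
    rw [hs0, add_zero] at ev
    rw [← ev, add_assoc, chain_add_self, add_zero]

theorem relAc_trans {α : Type} (K : Cx α) (d : ℕ) {S S' : Set α} (hS : Closed K S)
    (hS' : Closed K S') (h1 : S' ⊆ S) (a1 : RelAc K d S S') (a2 : RelAc K d S' ∅) :
    RelAc K d S ∅ := by
  intro n hn c hc hDc
  have hDc0 : K.D c = 0 := by
    funext x
    by_contra h0
    exact hDc x h0
  obtain ⟨w, r, hw, hr, ew⟩ := a1 n hn c hc (by
    intro x hx
    exact absurd (hDc x hx) (fun h => h))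
  have hDr : K.D r = 0 := by
    have h5 : r = c + K.D w := by
      rw [ew]
      have : K.D w + r + K.D w = (K.D w + K.D w) + r := by abel
      rw [this, chain_add_self, zero_add]
    rw [h5, K.D_add, K.D_D, hDc0, add_zero]
  obtain ⟨v, s, hv, hs, ev⟩ := a2 n hn r hr (by
    intro x hx
    rw [hDr] at hx
    exact absurd rfl hx)
  refine ⟨w + v, s, hw.add (hv.mono h1), hs, ?_⟩
  rw [ew, ev, K.D_add]
  abel

end Pool.Agent.DC
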