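import Mathlib

/-!
A lemma on thresholds for a family of finite sets with a system of distinct representatives
(asked by helper93 for MP_6bc104_co).

Let `Q i`, `i` in a finite type with `n` elements, satisfy Hall's condition.  Then there are
thresholds `1 ≤ c i ≤ |Q i|` with `∑ c i ≤ n (n + 1) / 2` such that for every finite set `F` at
most `|F|` indices `i` satisfy `c i ≤ |Q i ∩ F|`.

Proof.  Greedy: `Y` is the set of processed indices, the thresholds of the others are `|Q i|`.
As long as there is an unprocessed index, some unprocessed `p` can get the threshold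
`min |Q p| (|Y| + 1)` (`step`).
-/

namespace Pool.Agent.Helper18.DC

open Finset

section

variable {ι α : Type*} [Fintype ι] [DecidableEq ι] [DecidableEq α]

/-- The indices which are counted at `F`. -/
def cset (Q : ι → Finset α) (c : ι → ℕ) (F : Finset α) : Finset ι :=
  univ.filter fun i => c i ≤ (Q i ∩ F).card

/-- At most `|F|` indices are counted at `F`, for every `F`. -/
def Good (Q : ι → Finset α) (c : ι → ℕ) : Prop :=
  ∀ F : Finset α, (cset Q c F).card ≤ F.card

/-- Processed indices which are counted at `F`. -/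
def YF (Q : ι → Finset α) (c : ι → ℕ) (Y : Finset ι) (F : Finset α) : Finset ι :=
  Y.filter fun i => c i ≤ (Q i ∩ F).card

/-- Unprocessed indices whose set lies in `F`. -/
def RF (Q : ι → Finset α) (Y : Finset ι) (F : Finset α) : Finset ι :=
  Yᶜ.filter fun i => Q i ⊆ F

theorem card_le_inter_iff (A F : Finset α) : A.card ≤ (A ∩ F).card ↔ A ⊆ F := by
  constructor
  · intro h
    have h1 : A ∩ F = A := eq_of_subset_of_card_le inter_subset_left h
    exact inter_eq_left.mp h1
  · intro h
    rw [inter_eq_left.mpr h]

theorem card_cset {Q : ι → Finset α} {c : ι → ℕ} {Y : Finset ι}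
    (hY : ∀ i, i ∉ Y → c i = (Q i).card) (F : Finset α) :
    (cset Q c F).card = (YF Q c Y F).card + (RF Q Y F).card := by
  have h1 : cset Q c F = YF Q c Y F ∪ RF Q Y F := by
    ext i
    simp only [cset, YF, RF, mem_filter, mem_univ, true_and, mem_union, mem_compl]
    constructor
    · intro h
      by_cases hi : i ∈ Y
      · exact Or.inl ⟨hi, h⟩
      · right
        refine ⟨hi, ?_⟩
        rw [hY i hi] at h
        exact (card_le_inter_iff _ _).1 h
    · rintro (⟨_, h⟩ | ⟨hi, h⟩)
      · exact h
      · rw [hY i hi]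
        exact (card_le_inter_iff _ _).2 h
  have h2 : Disjoint (YF Q c Y F) (RF Q Y F) := by
    rw [Finset.disjoint_left]
    intro i hi hj
    simp only [YF, RF, mem_filter, mem_compl] at hi hj
    exact hj.1 hi.1
  rw [h1, card_union_of_disjoint h2]

omit [Fintype ι] [DecidableEq ι] in
theorem YF_mono {Q : ι → Finset α} {c : ι → ℕ} {Y : Finset ι} {F G : Finset α} (h : F ⊆ G) :
    (YF Q c Y F).card ≤ (YF Q c Y G).card := by
  apply card_le_card
  intro i hi
  simp only [YF, mem_filter] at hi ⊢
  exact ⟨hi.1, hi.2.trans (card_le_card (inter_subset_inter_left h))⟩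

theorem RF_submod (Q : ι → Finset α) (Y : Finset ι) (F G : Finset α) :
    (RF Q Y F).card + (RF Q Y G).card ≤ (RF Q Y (F ∩ G)).card + (RF Q Y (F ∪ G)).card := by
  have h1 : (RF Q Y F ∩ RF Q Y G) ⊆ RF Q Y (F ∩ G) := by
    intro i hi
    simp only [RF, mem_inter, mem_filter, mem_compl] at hi ⊢
    exact ⟨hi.1.1, subset_inter hi.1.2 hi.2.2⟩
  have h2 : (RF Q Y F ∪ RF Q Y G) ⊆ RF Q Y (F ∪ G) := by
    intro i hi
    simp only [RF, mem_union, mem_filter, mem_compl] at hi ⊢
    rcases hi with hi | hi
    · exact ⟨hi.1, hi.2.trans subset_union_left⟩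
    · exact ⟨hi.1, hi.2.trans subset_union_right⟩
  have h3 := card_union_add_card_inter (RF Q Y F) (RF Q Y G)
  have h4 := card_le_card h1
  have h5 := card_le_card h2
  omega

/-- An obstruction to lowering the threshold of `p`. -/
theorem obstruction {Q : ι → Finset α} {c : ι → ℕ} (hg : Good Q c) {p : ι} {k : ℕ}
    (hb : ¬ Good Q (Function.update c p k)) :
    ∃ F : Finset α, k ≤ (Q p ∩ F).card ∧ ¬ c p ≤ (Q p ∩ F).card ∧
      F.card ≤ (cset Q c F).card := by
  unfold Good at hb
  push Not at hb
  obtain ⟨F, hF⟩ := hb
  refine ⟨F, ?_, ?_, ?_⟩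
  · by_contra hk
    have h1 : cset Q (Function.update c p k) F ⊆ cset Q c F := by
      intro i hi
      simp only [cset, mem_filter, mem_univ, true_and] at hi ⊢
      by_cases hip : i = p
      · subst hip
        rw [Function.update_self] at hi
        exact absurd hi hk
      · rwa [Function.update_of_ne hip] at hi
    have h2 := card_le_card h1
    have h3 := hg F
    omega
  · intro hp
    have h1 : cset Q (Function.update c p k) F ⊆ cset Q c F := by
      intro i hi
      simp only [cset, mem_filter, mem_univ, true_and] at hi ⊢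
      by_cases hip : i = p
      · subst hip
        exact hp
      · rwa [Function.update_of_ne hip] at hi
    have h2 := card_le_card h1
    have h3 := hg F
    omega
  · have h1 : cset Q (Function.update c p k) F ⊆ insert p (cset Q c F) := by
      intro i hi
      simp only [cset, mem_filter, mem_univ, true_and, mem_insert] at hi ⊢
      by_cases hip : i = p
      · exact Or.inl hip
      · right
        rwa [Function.update_of_ne hip] at hi
    have h2 := card_le_card h1
    have h3 := card_insert_le p (cset Q c F)
    omega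

/-- The greedy step. -/
theorem step {Q : ι → Finset α} {c : ι → ℕ} {Y : Finset ι}
    (hY : ∀ i, i ∉ Y → c i = (Q i).card) (hg : Good Q c) (hne : ∃ i, i ∉ Y) :
    ∃ p, p ∉ Y ∧ Good Q (Function.update c p (min (Q p).card (Y.card + 1))) := by
  by_contra hcon
  push Not at hcon
  -- every unprocessed set is large
  have hlarge : ∀ p, p ∉ Y → Y.card + 1 < (Q p).card := by
    intro p hp
    by_contra hle
    push Not at hle
    apply hcon p hp
    have h1 : min (Q p).card (Y.card + 1) = c p := by
      rw [hY p hp]
      exact min_eq_left hle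
    rw [h1, Function.update_eq_self]
    exact hg
  have hobs : ∀ p, p ∉ Y → ∃ F : Finset α, Y.card + 1 ≤ (Q p ∩ F).card ∧ ¬ Q p ⊆ F ∧
      F.card ≤ (YF Q c Y F).card + (RF Q Y F).card := by
    intro p hp
    have h1 := hcon p hp
    rw [min_eq_right (hlarge p hp).le] at h1
    obtain ⟨F, h2, h3, h4⟩ := obstruction hg h1
    refine ⟨F, h2, ?_, ?_⟩
    · intro hsub
      apply h3
      rw [hY p hp]
      exact (card_le_inter_iff _ _).2 hsub
    · rw [card_cset hY] at h4
      exact h4
  have hYF : ∀ F, (YF Q c Y F).card ≤ Y.card := fun F => card_filter_le _ _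
  -- the class of sets from which a minimal one is taken
  let P : ℕ → Prop := fun k => ∃ G : Finset α, G.card = k ∧ Y.card + 1 ≤ G.card ∧
    G.card ≤ Y.card + (RF Q Y G).card
  have hP : ∃ k, P k := by
    obtain ⟨p, hp⟩ := hne
    obtain ⟨F, h1, _, h3⟩ := hobs p hp
    refine ⟨F.card, F, rfl, h1.trans (card_le_card inter_subset_right), ?_⟩
    have := hYF F
    omega
  classical
  obtain ⟨G, hGk, hG1, hG2⟩ := Nat.find_spec hP
  have hmin : ∀ A : Finset α, A.card < G.card → Y.card + 1 ≤ A.card →
      Y.card + (RF Q Y A).card < A.card := by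
    intro A hA1 hA2
    by_contra hA3
    push Not at hA3
    have : P A.card := ⟨A, rfl, hA2, hA3⟩
    have := Nat.find_min' hP this
    omega
  have hRG : 0 < (RF Q Y G).card := by omega
  obtain ⟨p, hp⟩ := card_pos.mp hRG
  have hpY : p ∉ Y := by
    simp only [RF, mem_filter, mem_compl] at hp
    exact hp.1
  have hpG : Q p ⊆ G := by
    simp only [RF, mem_filter, mem_compl] at hp
    exact hp.2
  obtain ⟨F, hF1, hF2, hF3⟩ := hobs p hpY
  have hA1 : Y.card + 1 ≤ (G ∩ F).card :=
    hF1.trans (card_le_card (inter_subset_inter_right hpG))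
  have hA2 : (G ∩ F).card < G.card := by
    apply card_lt_card
    refine ⟨inter_subset_left, ?_⟩
    intro h
    exact hF2 ((hpG.trans h).trans inter_subset_right)
  have hA3 := hmin _ hA2 hA1
  have h1 := RF_submod Q Y G F
  have h2 := card_union_add_card_inter G F
  have h3 := hg (G ∪ F)
  rw [card_cset hY] at h3
  have h4 : (YF Q c Y F).card ≤ (YF Q c Y (G ∪ F)).card := YF_mono subset_union_right
  omega

/-- The greedy procedure after `N` steps. -/
theorem steps (Q : ι → Finset α) (hall : ∀ s : Finset ι, s.card ≤ (s.biUnion Q).card) (N : ℕ)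
    (hN : N ≤ Fintype.card ι) :
    ∃ (Y : Finset ι) (c : ι → ℕ), Y.card = N ∧ (∀ i, i ∉ Y → c i = (Q i).card) ∧
      (∀ i, 1 ≤ c i ∧ c i ≤ (Q i).card) ∧ Good Q c ∧
      ∀ g : ℕ → ℕ, Monotone g → ∑ i ∈ Y, g (c i) ≤ ∑ j ∈ range N, g (j + 1) := by
  induction N with
  | zero =>
    refine ⟨∅, fun i => (Q i).card, rfl, fun _ _ => rfl, fun i => ⟨?_, le_rfl⟩, ?_, by simp⟩
    · have h := hall {i}
      simpa using h
    · intro F
      have h := hall (cset Q (fun i => (Q i).card) F)
      refine h.trans (card_le_card ?_)
      intro a ha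
      rw [mem_biUnion] at ha
      obtain ⟨i, hi, hai⟩ := ha
      simp only [cset, mem_filter, mem_univ, true_and] at hi
      exact (card_le_inter_iff _ _).1 hi hai
  | succ N ih =>
    obtain ⟨Y, c, hYc, hY, hc, hg, hsum⟩ := ih (Nat.le_of_succ_le hN)
    have hne : ∃ i, i ∉ Y := by
      by_contra hcon
      push Not at hcon
      have : Y = univ := eq_univ_of_forall hcon
      rw [this, card_univ] at hYc
      omega
    obtain ⟨p, hp, hgp⟩ := step hY hg hne
    refine ⟨insert p Y, Function.update c p (min (Q p).card (Y.card + 1)), ?_, ?_, ?_, hgp, ?_⟩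
    · rw [card_insert_of_notMem hp, hYc]
    · intro i hi
      rw [mem_insert, not_or] at hi
      rw [Function.update_of_ne hi.1]
      exact hY i hi.2
    · intro i
      by_cases hip : i = p
      · subst hip
        rw [Function.update_self]
        have h1 := hc i
        refine ⟨?_, min_le_left _ _⟩
        rw [le_min_iff]
        omega
      · rw [Function.update_of_ne hip]
        exact hc i
    · intro g hgm
      rw [sum_insert hp, Function.update_self, sum_range_succ]
      have h1 : ∑ i ∈ Y, g (Function.update c p (min (Q p).card (Y.card + 1)) i) =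
          ∑ i ∈ Y, g (c i) := by
        apply sum_congr rfl
        intro i hi
        rw [Function.update_of_ne]
        rintro rfl
        exact hp hi
      rw [h1]
      have h2 : min (Q p).card (Y.card + 1) ≤ N + 1 := by
        rw [hYc]
        exact min_le_right _ _
      have h3 := hgm h2
      have h4 := hsum g hgm
      omega

end

/-- **Thresholds, ordered form.**  A finite family of finite sets with Hall's condition has
thresholds `1 ≤ c i ≤ |Q i|`, in some order the `j`-th at most `j`, such that every finite set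
`F` reaches the threshold of at most `|F|` members. -/
theorem exists_thresholds_ord {ι α : Type*} [Fintype ι] [DecidableEq α] (Q : ι → Finset α)
    (hall : ∀ s : Finset ι, s.card ≤ (s.biUnion Q).card) :
    ∃ c : ι → ℕ, (∀ i, 1 ≤ c i ∧ c i ≤ (Q i).card) ∧
      (∀ g : ℕ → ℕ, Monotone g →
        ∑ i, g (c i) ≤ ∑ j ∈ Finset.range (Fintype.card ι), g (j + 1)) ∧
      ∀ F : Finset α, (Finset.univ.filter fun i => c i ≤ (Q i ∩ F).card).card ≤ F.card := by
  classical
  obtain ⟨Y, c, hYc, _, hc, hg, hsum⟩ := steps Q hall (Fintype.card ι) le_rfl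
  have hY : Y = univ := (card_eq_iff_eq_univ Y).mp hYc
  subst hY
  exact ⟨c, hc, hsum, hg⟩

/-- **Thresholds.**  A finite family of finite sets with Hall's condition has thresholds
`1 ≤ c i ≤ |Q i|` of sum at most `n (n + 1) / 2` such that every finite set `F` reaches the
threshold of at most `|F|` members. -/
theorem exists_thresholds {ι α : Type*} [Fintype ι] [DecidableEq α] (Q : ι → Finset α)
    (hall : ∀ s : Finset ι, s.card ≤ (s.biUnion Q).card) :
    ∃ c : ι → ℕ, (∀ i, 1 ≤ c i ∧ c i ≤ (Q i).card) ∧
      2 * ∑ i, c i ≤ Fintype.card ι * (Fintype.card ι + 1) ∧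
      ∀ F : Finset α, (Finset.univ.filter fun i => c i ≤ (Q i ∩ F).card).card ≤ F.card := by
  obtain ⟨c, hc, hsum, hg⟩ := exists_thresholds_ord Q hall
  refine ⟨c, hc, ?_, hg⟩
  have h1 := hsum id monotone_id
  simp only [id] at h1
  have h2 : ∀ n : ℕ, 2 * ∑ j ∈ Finset.range n, (j + 1) = n * (n + 1) := by
    intro n
    induction n with
    | zero => simp
    | succ n ih =>
      rw [sum_range_succ, mul_add, ih]
      ring
  have h3 := h2 (Fintype.card ι)
  omega

end Pool.Agent.Helper18.DC
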